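import Pool.Agent.Helper68.QS.St1

/-!
# Project QD, straightening and transfer: module ENM
-/

set_option autoImplicit false

open MeasureTheory Set Filter Topology Complex
open scoped ContDiff ComplexConjugate ENNReal

namespace Pool.Agent.Helper54.QS

open Pool.Agent.Helper68.QS Pool.Agent.Helper68.QC
open Pool.Agent.Helper61.QE (D Dx rf SU Fu FD Ab sy nuT muT syX syY Kap En Et)

theorem det_smul_one (c : ℂ) :
    |((ContinuousLinearMap.toSpanSingleton ℂ c : ℂ →L[ℂ] ℂ).restrictScalars ℝ).det| = ‖c‖ ^ 2 := by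
  rw [ContinuousLinearMap.det]
  have h1 : ((ContinuousLinearMap.toSpanSingleton ℂ c : ℂ →L[ℂ] ℂ).restrictScalars ℝ :
      ℂ →ₗ[ℝ] ℂ) = Algebra.lmul ℝ ℂ c := by
    ext z <;> simp [mul_comm]
  rw [h1]
  have h2 : LinearMap.det (Algebra.lmul ℝ ℂ c) = Algebra.norm ℝ c := rfl
  rw [h2, Algebra.norm_complex_apply, Complex.normSq_eq_norm_sq, abs_of_nonneg (by positivity)]

theorem den_zero_sub (B : SL) : {z : ℂ | den B z = 0}.Subsingleton := by
  intro z hz w hw
  simp only [mem_setOf_eq, den] at hz hw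
  have hdet := B.det_coe
  rw [Matrix.det_fin_two] at hdet
  by_cases hc : B 1 0 = 0
  · exfalso
    rw [hc] at hz hdet
    have : B 1 1 = 0 := by simpa using hz
    rw [this] at hdet
    simp at hdet
  · have h3 : B 1 0 * (z - w) = 0 := by linear_combination hz - hw
    rcases mul_eq_zero.1 h3 with h | h
    · exact absurd h hc
    · exact sub_eq_zero.1 h

theorem pENM (hSUB : Pool.Agent.Helper61.QE.StSUB) : Pool.Agent.Helper68.QS.StENM := by
  obtain ⟨h1, h2, h3, h4, h5, h6, h7, h8, h9, h10⟩ := hSUB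
  intro M B w₁ w₂ F hM hI hF hFD
  obtain ⟨hI1, hI2, hI3, hI4⟩ := hI
  set V : Set ℂ := {z | den B z ≠ 0} with hV
  have hdenc : Continuous (fun z => den B z) := by unfold den; fun_prop
  have hVm : MeasurableSet V := (isOpen_ne_fun hdenc continuous_const).measurableSet
  have hVc : (Vᶜ : Set ℂ).Subsingleton := by
    have : (Vᶜ : Set ℂ) = {z | den B z = 0} := by ext z; simp [hV]
    rw [this]; exact den_zero_sub B
  have hinj : InjOn (mob B) V := by
    intro z hz w hw h
    have := h3 B z w hz hw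
    rw [h, sub_self] at this
    have h' := this.symm
    rw [div_eq_zero_iff] at h'
    rcases h' with h' | h'
    · exact sub_eq_zero.1 h'
    · exact absurd h' (mul_ne_zero hz hw)
  have hder : ∀ z ∈ V, ∀ S : Set ℂ, HasFDerivWithinAt (mob B)
      ((ContinuousLinearMap.toSpanSingleton ℂ ((den B z ^ 2)⁻¹) : ℂ →L[ℂ] ℂ).restrictScalars ℝ) S z := by
    intro z hz S
    exact ((h2 B z hz).hasFDerivAt.restrictScalars ℝ).hasFDerivWithinAt
  have hchange : ∀ S : Set ℂ, MeasurableSet S → S ⊆ V → ∀ g : ℂ → ℝ≥0∞,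
      ∫⁻ x in mob B '' S, g x = ∫⁻ y in S, ENNReal.ofReal (‖(den B y ^ 2)⁻¹‖ ^ 2) * g (mob B y) := by
    intro S hS hSV g
    rw [lintegral_image_eq_lintegral_abs_det_fderiv_mul volume hS
      (fun x hx => hder x (hSV hx) S) (hinj.mono hSV) g]
    simp only [det_smul_one]
  -- the inner set
  have hFden : ∀ z ∈ F, den M z ≠ 0 := by
    intro z hz
    have := hFD hz
    rw [Metric.mem_ball, dist_zero_right] at this
    exact h4 M hM z this.le
  have hset1 : w₂ '' (mob M '' F) = mob B '' (w₁ '' F) := by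
    rw [image_image, image_image]
    exact image_congr (fun z hz => hI2 z (hFden z hz))
  have hw1F : w₁ '' F ⊆ V := by
    rintro _ ⟨z, hz, rfl⟩
    exact fun h => hFden z hz ((hI1 z).2 h)
  -- the outer set
  have hmobDx : ∀ A : SL, SU A → ∀ z ∈ Dx, den A z ≠ 0 → mob A z ∈ Dx := by
    intro A hA z hz hd
    have e := h5 A hA z hd
    have hz' : 1 < ‖z‖ := hz
    have hn : 0 < ‖den A z‖ ^ 2 := by positivity
    change 1 < ‖mob A z‖
    by_contra hcon
    push Not at hcon
    have : 0 ≤ 1 - ‖mob A z‖ ^ 2 := by nlinarith [norm_nonneg (mob A z)]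
    nlinarith [mul_nonneg this hn.le]
  set W : Set ℂ := w₁ '' Dx ∩ V with hW
  have hsub1 : mob B '' W ⊆ w₂ '' Dx := by
    rintro _ ⟨_, ⟨⟨z, hz, rfl⟩, hzV⟩, rfl⟩
    have hd : den M z ≠ 0 := fun h => hzV ((hI1 z).1 h)
    exact ⟨mob M z, hmobDx M hM z hz hd, hI2 z hd⟩
  have hsub2 : w₂ '' Dx ⊆ mob B '' W ∪ {B 0 0 / B 1 0} := by
    rintro _ ⟨η, hη, rfl⟩
    by_cases hd : den M⁻¹ η = 0
    · right
      have hdet := M.det_coe
      rw [Matrix.det_fin_two] at hdet
      have e1 : (M⁻¹ : SL) 1 0 = - M 1 0 := by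
        rw [Matrix.SpecialLinearGroup.coe_inv, Matrix.adjugate_fin_two]; rfl
      have e2 : (M⁻¹ : SL) 1 1 = M 0 0 := by
        rw [Matrix.SpecialLinearGroup.coe_inv, Matrix.adjugate_fin_two]; rfl
      rw [den, e1, e2] at hd
      have hc : M 1 0 ≠ 0 := by
        intro hc
        rw [hc] at hd hdet
        have h00 : M 0 0 = 0 := by simpa using hd
        rw [h00] at hdet
        simp at hdet
      have hη' : η = M 0 0 / M 1 0 := by
        rw [eq_div_iff hc]
        linear_combination -hd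
      rw [hη', hI4 hc]
      rfl
    · left
      have h10' := h10 M⁻¹ η hd
      rw [inv_inv] at h10'
      have hd' : den M (mob M⁻¹ η) ≠ 0 := by
        intro h
        rw [h, zero_mul] at h10'
        exact zero_ne_one h10'.2
      refine ⟨w₁ (mob M⁻¹ η), ⟨⟨mob M⁻¹ η, hmobDx _ (h7 M M hM hM).2.1 η hη hd, rfl⟩, ?_⟩, ?_⟩
      · exact fun h => hd' ((hI1 _).2 h)
      · rw [← hI2 _ hd', h10'.1]
  have hae1 : (w₂ '' Dx : Set ℂ) =ᵐ[volume] (mob B '' W : Set ℂ) := by
    refine Filter.EventuallyLE.antisymm ?_ (HasSubset.Subset.eventuallyLE hsub1)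
    have hnull : volume ({B 0 0 / B 1 0} : Set ℂ) = 0 := measure_singleton _
    rw [ae_le_set]
    refine measure_mono_null ?_ hnull
    intro x hx
    rcases hsub2 hx.1 with h | h
    · exact absurd h hx.2
    · exact h
  have hae2 : (W : Set ℂ) =ᵐ[volume] (w₁ '' Dx : Set ℂ) := by
    refine Filter.EventuallyLE.antisymm (HasSubset.Subset.eventuallyLE inter_subset_left) ?_
    rw [ae_le_set]
    refine measure_mono_null ?_ (hVc.measure_zero volume)
    intro x hx h
    exact hx.2 ⟨hx.1, h⟩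
  have hDxo : IsOpen Dx := isOpen_lt continuous_const continuous_norm
  have hWm : MeasurableSet W := (w₁.isOpen_image.2 hDxo).measurableSet.inter hVm
  have hw1Fm : MeasurableSet (w₁ '' F) := w₁.toMeasurableEquiv.measurableSet_image.2 hF
  rw [hset1, hchange _ hw1Fm hw1F]
  refine setLIntegral_congr_fun hw1Fm (fun x hx => ?_)
  have hx0 : den B x ≠ 0 := hw1F hx
  have hxp : 0 < ‖den B x‖ := norm_pos_iff.2 hx0
  change ENNReal.ofReal (‖(den B x ^ 2)⁻¹‖ ^ 2) *
    ∫⁻ ξ in w₂ '' Dx, ENNReal.ofReal (‖ξ - mob B x‖⁻¹ ^ 4) =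
    ∫⁻ ξ in w₁ '' Dx, ENNReal.ofReal (‖ξ - x‖⁻¹ ^ 4)
  rw [setLIntegral_congr hae1, hchange W hWm inter_subset_right, ← setLIntegral_congr hae2,
    ← lintegral_const_mul' _ _ ENNReal.ofReal_ne_top]
  refine setLIntegral_congr_fun hWm (fun ξ hξ => ?_)
  have hξ0 : den B ξ ≠ 0 := hξ.2
  have hξp : 0 < ‖den B ξ‖ := norm_pos_iff.2 hξ0
  change ENNReal.ofReal _ * (ENNReal.ofReal _ * ENNReal.ofReal _) = ENNReal.ofReal _
  rw [h3 B ξ x hξ0 hx0, ← ENNReal.ofReal_mul (by positivity), ← ENNReal.ofReal_mul (by positivity)]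
  congr 1
  rw [norm_div, norm_mul, norm_inv, norm_inv, norm_pow, norm_pow, inv_div]
  by_cases hz : ‖ξ - x‖ = 0
  · rw [hz]; simp
  · field_simp

end Pool.Agent.Helper54.QS
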