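import Pool.Agent.Helper68.QS.St1

/-!
# Project QD, straightening and transfer: module MPB
-/

set_option autoImplicit false

open MeasureTheory Set Filter Topology Complex
open scoped ContDiff ComplexConjugate ENNReal

namespace Pool.Agent.Helper54.QS

open Pool.Agent.Helper68.QS Pool.Agent.Helper68.QC
open Pool.Agent.Helper61.QE (D Dx rf SU Fu FD Ab sy nuT muT syX syY Kap En Et)

theorem norm_div_conj_le (a : ℂ) : ‖a / conj a‖ ≤ 1 := by
  rw [norm_div, RCLike.norm_conj]
  exact div_self_le_one _

theorem norm_sq_div_le (a : ℂ) : ‖a ^ 2 / conj a ^ 2‖ ≤ 1 := by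
  rw [← div_pow, norm_pow]
  exact pow_le_one₀ (norm_nonneg _) (norm_div_conj_le a)

theorem nuT_meas (h : ℂ → ℂ) : Measurable (nuT h) := by
  unfold nuT
  have h1 : Measurable (rf : ℂ → ℂ) := by
    unfold rf
    exact measurable_const.div (continuous_conj.measurable)
  have h2 : Measurable (fun z => deriv h (rf z)) := (measurable_deriv h).comp h1
  have h3 : Measurable (fun z : ℂ => conj (deriv h (rf z))) := continuous_conj.measurable.comp h2
  have h4 : Measurable (fun z : ℂ => z ^ 2 / conj z ^ 2) :=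
    (measurable_id.pow_const 2).div ((continuous_conj.measurable).pow_const 2)
  exact Measurable.ite (measurableSet_lt measurable_const continuous_norm.measurable)
    ((h2.div h3).mul h4) measurable_const

theorem nuT_le (h : ℂ → ℂ) (z : ℂ) : ‖nuT h z‖ ≤ 1 := by
  unfold nuT
  split_ifs with hz
  · rw [norm_mul]
    exact mul_le_one₀ (norm_div_conj_le _) (norm_nonneg _) (norm_sq_div_le z)
  · simp

theorem bel_muT {δ : ℝ} {κ : ℂ → ℂ} (h : ℂ → ℂ) (hb : Bel δ κ) (h0 : ∀ z, 1 ≤ ‖z‖ → κ z = 0)
    (ζ : ℂ) : Bel (max δ ‖ζ‖) (muT κ h ζ) := by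
  refine ⟨?_, ?_⟩
  · unfold Pool.Agent.Helper61.QE.muT
    exact hb.meas.add ((nuT_meas h).const_mul ζ)
  · intro z
    unfold Pool.Agent.Helper61.QE.muT
    by_cases hz : 1 < ‖z‖
    · rw [h0 z hz.le, zero_add, norm_mul]
      refine le_trans ?_ (le_max_right _ _)
      calc ‖ζ‖ * ‖nuT h z‖ ≤ ‖ζ‖ * 1 := mul_le_mul_of_nonneg_left (nuT_le h z) (norm_nonneg _)
        _ = ‖ζ‖ := mul_one _
    · have : nuT h z = 0 := by unfold nuT; rw [if_neg hz]
      rw [this, mul_zero, add_zero]
      exact (hb.le z).trans (le_max_left _ _)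

theorem den_zero_null (B : SL) : ∀ᵐ z : ℂ, den B z ≠ 0 := by
  have hsub : {z : ℂ | den B z = 0}.Subsingleton := by
    intro z hz w hw
    have hz' : B 1 0 * z + B 1 1 = 0 := hz
    have hw' : B 1 0 * w + B 1 1 = 0 := hw
    have hdet := B.det_coe
    rw [Matrix.det_fin_two] at hdet
    by_cases hc : B 1 0 = 0
    · exfalso
      rw [hc] at hz' hdet
      have : B 1 1 = 0 := by simpa using hz'
      rw [this] at hdet
      simp at hdet
    · have h3 : B 1 0 * (z - w) = 0 := by linear_combination hz' - hw'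
      rcases mul_eq_zero.1 h3 with h | h
      · exact absurd h hc
      · exact sub_eq_zero.1 h
  have := hsub.measure_zero (volume : Measure ℂ)
  rw [ae_iff]
  convert this using 3
  simp

theorem circle_null : ∀ᵐ z : ℂ, ‖z‖ ≠ 1 := by
  have : (volume : Measure ℂ) (Metric.sphere (0 : ℂ) 1) = 0 :=
    Measure.addHaar_sphere_of_ne_zero volume 0 one_ne_zero
  rw [ae_iff]
  convert this using 2
  ext z
  simp

theorem pMPB (hSUB : Pool.Agent.Helper61.QE.StSUB) (hGEV : Pool.Agent.Helper68.QS.StGEV) :
    Pool.Agent.Helper68.QS.StMPB := by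
  obtain ⟨h1, h2, h3, h4, h5, h6, h7, h8, h9, h10⟩ := hSUB
  intro h κ' M δ hh hMs hδ hκ hκ0
  have hδ0 : 0 ≤ δ := (norm_nonneg _).trans (hκ.le 0)
  have hmobD : ∀ A : SL, SU A → ∀ z : ℂ, ‖z‖ < 1 → ‖mob A z‖ < 1 := by
    intro A hA z hz
    have hd := h4 A hA z hz.le
    have e := h5 A hA z hd
    have hn : 0 < ‖den A z‖ ^ 2 := by positivity
    by_contra hcon
    push Not at hcon
    have h' : 1 - ‖mob A z‖ ^ 2 ≤ 0 := by nlinarith [norm_nonneg (mob A z)]
    have h'' : 0 < 1 - ‖z‖ ^ 2 := by nlinarith [norm_nonneg z]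
    nlinarith [mul_nonneg (neg_nonneg.2 h') hn.le]
  have hmobX : ∀ A : SL, SU A → ∀ z : ℂ, 1 < ‖z‖ → den A z ≠ 0 → 1 < ‖mob A z‖ := by
    intro A hA z hz hd
    have e := h5 A hA z hd
    have hn : 0 < ‖den A z‖ ^ 2 := by positivity
    by_contra hcon
    push Not at hcon
    have h' : 0 ≤ 1 - ‖mob A z‖ ^ 2 := by nlinarith [norm_nonneg (mob A z)]
    have h'' : 1 - ‖z‖ ^ 2 < 0 := by nlinarith [norm_nonneg z]
    nlinarith [mul_nonneg h' hn.le]
  set κ'' : ℂ → ℂ := fun z => if ‖z‖ < 1 then κ' (mob M z) * (den M z ^ 2 / conj (den M z) ^ 2)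
    else 0 with hκ''
  have hin : ∀ z, ‖z‖ < 1 → κ'' z = κ' (mob M z) * (den M z ^ 2 / conj (den M z) ^ 2) := by
    intro z hz; rw [hκ'']; exact if_pos hz
  have hout : ∀ z, 1 ≤ ‖z‖ → κ'' z = 0 := by
    intro z hz; rw [hκ'']; exact if_neg (not_lt.2 hz)
  have hdenm : Measurable (den M) := by
    have : Continuous (den M) := by unfold den; fun_prop
    exact this.measurable
  have hmobm : Measurable (mob M) := by
    unfold mob
    refine Measurable.div ?_ hdenm
    have : Continuous (fun z : ℂ => M 0 0 * z + M 0 1) := by fun_prop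
    exact this.measurable
  have hbel : Bel δ κ'' := by
    refine ⟨?_, ?_⟩
    · refine Measurable.ite (measurableSet_lt continuous_norm.measurable measurable_const) ?_
        measurable_const
      exact (hκ.meas.comp hmobm).mul ((hdenm.pow_const 2).div
        ((continuous_conj.measurable.comp hdenm).pow_const 2))
    · intro z
      by_cases hz : ‖z‖ < 1
      · rw [hin z hz, norm_mul]
        calc ‖κ' (mob M z)‖ * ‖den M z ^ 2 / conj (den M z) ^ 2‖ ≤ δ * 1 :=
              mul_le_mul (hκ.le _) (norm_sq_div_le _) (norm_nonneg _) hδ0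
          _ = δ := mul_one _
      · rw [hout z (not_lt.1 hz), norm_zero]; exact hδ0
  refine ⟨κ'', hbel, hout, ?_, ?_⟩
  · intro ζ hζ
    have hζ1 : ‖ζ‖ < 1 := by simpa using hζ
    refine hGEV (max δ ‖ζ‖) (max_lt hδ hζ1) _ _ (bel_muT h hbel hout ζ)
      (bel_muT (hM M h) hκ hκ0 ζ) M ?_
    filter_upwards [circle_null, den_zero_null M] with z hz1 hzd
    rcases lt_or_gt_of_ne hz1 with hz | hz
    · -- inside
      have hm := hmobD M hMs z hz
      have e1 : nuT (hM M h) (mob M z) = 0 := by
        unfold nuT; rw [if_neg (not_lt.2 hm.le)]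
      have e2 : nuT h z = 0 := by
        unfold nuT; rw [if_neg (not_lt.2 hz.le)]
      have hcd : conj (den M z) ≠ 0 := (map_ne_zero _).2 hzd
      simp only [Pool.Agent.Helper61.QE.muT]
      rw [e1, e2, hin z hz]
      field_simp
      ring
    · -- outside
      have hm := hmobX M hMs z hz hzd
      have e0 : κ' (mob M z) = 0 := hκ0 _ hm.le
      have e0' : κ'' z = 0 := hout z hz.le
      simp only [Pool.Agent.Helper61.QE.muT]
      rw [e0, e0', zero_add, zero_add]
      have hz0 : z ≠ 0 := by
        intro h; rw [h, norm_zero] at hz; linarith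
      set y := mob M z with hy
      have hy0 : y ≠ 0 := by
        intro h; rw [h, norm_zero] at hm; linarith
      set x := rf z with hx
      have hxn : ‖x‖ < 1 := by
        rw [hx, rf, norm_div, RCLike.norm_conj, norm_one]
        rw [div_lt_one (by linarith)]; exact hz
      have hrf : rf y = mob M x := (h6 M hMs z hz0).symm
      have hdx : den M x ≠ 0 := h4 M hMs x hxn.le
      obtain ⟨h10a, h10b⟩ := h10 M x hdx
      have hdi : den M⁻¹ (mob M x) ≠ 0 := by
        intro h; rw [h, zero_mul] at h10b; exact zero_ne_one h10b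
      have hder : deriv (hM M h) (mob M x) = deriv h x * den M x ^ 2 := by
        have ha : HasDerivAt h (deriv h x) x :=
          (hh.differentiableAt (Metric.isOpen_ball.mem_nhds (by simpa using hxn))).hasDerivAt
        have hb := h2 M⁻¹ (mob M x) hdi
        have ha' : HasDerivAt h (deriv h x) (mob M⁻¹ (mob M x)) := by rw [h10a]; exact ha
        have hc := ha'.comp (mob M x) hb
        have hc' : HasDerivAt (hM M h) (deriv h x * ((den M⁻¹ (mob M x) ^ 2)⁻¹)) (mob M x) := hc
        rw [hc'.deriv]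
        congr 1
        have hq : den M⁻¹ (mob M x) ^ 2 * den M x ^ 2 = 1 := by rw [← mul_pow, h10b, one_pow]
        exact inv_eq_of_mul_eq_one_right hq
      have hdxe : den M x = conj (y * den M z) / conj z := by
        have hcz : conj z ≠ 0 := (map_ne_zero _).2 hz0
        obtain ⟨hM1, hM2⟩ := hMs
        have : y * den M z = M 0 0 * z + M 0 1 := by
          rw [hy, mob]; field_simp
        rw [this, hx, rf, den, hM1, hM2, map_add, map_mul]
        field_simp
        ring
      have eL : nuT (hM M h) y = deriv (hM M h) (rf y) / conj (deriv (hM M h) (rf y)) *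
          (y ^ 2 / conj y ^ 2) := by unfold nuT; rw [if_pos hm]
      have eR : nuT h z = deriv h x / conj (deriv h x) * (z ^ 2 / conj z ^ 2) := by
        unfold nuT; rw [if_pos hz]
      rw [eL, eR, hrf, hder, map_mul, mul_div_mul_comm, map_pow]
      have hcz : conj z ≠ 0 := (map_ne_zero _).2 hz0
      have hcy : conj y ≠ 0 := (map_ne_zero _).2 hy0
      have hcd : conj (den M z) ≠ 0 := (map_ne_zero _).2 hzd
      have key : den M x ^ 2 / conj (den M x) ^ 2 * (y ^ 2 / conj y ^ 2) * den M z ^ 2 =
          z ^ 2 / conj z ^ 2 * conj (den M z) ^ 2 := by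
        rw [hdxe]
        simp only [map_mul, map_div₀, Complex.conj_conj]
        field_simp
      linear_combination (ζ * (deriv h x / conj (deriv h x))) * key
  · intro A hA hinv
    set B : SL := M * A * M⁻¹ with hB
    have hBM : B * M = M * A := by rw [hB]; group
    have hnull : (volume : Measure ℂ) {w | ¬ (κ' (mob B w) * den B w ^ 2 =
        κ' w * conj (den B w) ^ 2)} = 0 := by
      have := hinv
      unfold InvB at this
      rwa [ae_iff] at this
    set N : Set ℂ := {w | ¬ (κ' (mob B w) * den B w ^ 2 = κ' w * conj (den B w) ^ 2)} with hN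
    have hMi : SU M⁻¹ := (h7 M M hMs hMs).2.1
    have hnull2 : (volume : Measure ℂ) (mob M⁻¹ '' (N ∩ D)) = 0 := by
      refine addHaar_image_eq_zero_of_differentiableOn_of_addHaar_eq_zero volume ?_
        (measure_mono_null inter_subset_left hnull)
      intro w hw
      have hw1 : ‖w‖ < 1 := by simpa using hw.2
      have := (h2 M⁻¹ w (h4 M⁻¹ hMi w hw1.le)).differentiableAt
      exact (this.restrictScalars ℝ).differentiableWithinAt
    have hae : ∀ᵐ z : ℂ, z ∉ mob M⁻¹ '' (N ∩ D) := by
      rw [ae_iff]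
      have hset : {a : ℂ | ¬ a ∉ mob M⁻¹ '' (N ∩ D)} = mob M⁻¹ '' (N ∩ D) := by
        ext a; exact not_not
      rw [hset]; exact hnull2
    unfold InvB
    filter_upwards [circle_null, den_zero_null A, hae] with z hz1 hzd hzN
    rcases lt_or_gt_of_ne hz1 with hz | hz
    · have hm := hmobD M hMs z hz
      have ha := hmobD A hA z hz
      have hdM : den M z ≠ 0 := h4 M hMs z hz.le
      have hdMa : den M (mob A z) ≠ 0 := h4 M hMs _ ha.le
      have hw : mob M z ∉ N := by
        intro hw
        exact hzN ⟨mob M z, ⟨hw, by simpa using hm⟩, (h10 M z hdM).1⟩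
      replace hw : κ' (mob B (mob M z)) * den B (mob M z) ^ 2 =
          κ' (mob M z) * conj (den B (mob M z)) ^ 2 := not_not.1 hw
      obtain ⟨c1, c2⟩ := h1 M A z hzd
      obtain ⟨c3, c4⟩ := h1 B M z hdM
      rw [hBM] at c3 c4
      have hbm : den M (mob A z) * den A z = den B (mob M z) * den M z := by rw [← c1, c3]
      have hmm : mob M (mob A z) = mob B (mob M z) := by rw [← c2, c4]
      rw [hin z hz, hin _ ha, hmm]
      have hc1 : conj (den M z) ≠ 0 := (map_ne_zero _).2 hdM
      have hc2 : conj (den M (mob A z)) ≠ 0 := (map_ne_zero _).2 hdMa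
      have hbm' : conj (den M (mob A z)) * conj (den A z) =
          conj (den B (mob M z)) * conj (den M z) := by
        rw [← map_mul, hbm, map_mul]
      rw [← mul_div_assoc, ← mul_div_assoc, div_mul_eq_mul_div, div_mul_eq_mul_div,
        div_eq_div_iff (pow_ne_zero 2 hc2) (pow_ne_zero 2 hc1)]
      have s1 : den M (mob A z) ^ 2 * den A z ^ 2 = den B (mob M z) ^ 2 * den M z ^ 2 := by
        rw [← mul_pow, hbm, mul_pow]
      have s2 : conj (den M (mob A z)) ^ 2 * conj (den A z) ^ 2 =
          conj (den B (mob M z)) ^ 2 * conj (den M z) ^ 2 := by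
        rw [← mul_pow, hbm', mul_pow]
      linear_combination (κ' (mob B (mob M z)) * conj (den M z) ^ 2) * s1 +
        (den M z ^ 2 * conj (den M z) ^ 2) * hw - (κ' (mob M z) * den M z ^ 2) * s2
    · have ha := hmobX A hA z hz hzd
      rw [hout z hz.le, hout _ ha.le]
      ring

end Pool.Agent.Helper54.QS
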